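import Mathlib
import Pool.Agent.Y144.MT.Cond
import Pool.Agent.Y144.MT.Classes

/-!
# Hodge classes and Tate classes on all powers of abelian varieties, from places of bad reduction of
any toric rank and Frobenius elements at places of good reduction

Let `A` be an abelian variety over a number field `L` embedded in the complex numbers,
`W = H_1(A, ℚ)` with the polarization form `ω₀`, `T` the tangent space at the origin and `per : W → T`
the inclusion; `V = ℚ_ℓ ⊗ W` is the rational Tate module, with the action `ρ` of the Galois group `Γ`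
and the cyclotomic character `χ`.  The cohomology group `H^{2m}(A^n)(m)` consists of the alternating
forms in `2 m` variables on `V ^ n`; `hodgeClasses` is the subspace generated by the Hodge classes and
`tateClasses` the subspace generated by the Tate classes (the spaces called `ℋ` and `𝒯` in the
problem, for `Y = A`, `k = n`, `j = m`).

Let `K` be the algebraic closure of `ℚ_ℓ` and `X = K ⊗ V`.  A subspace of `X` is *strongly irreducible* if
it is a minimal nonzero subspace stable under a subgroup of finite index.  If the endomorphism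
ring of `A` over the algebraic closure is `ℤ` there is just one, `X`.

Hypotheses.

* `hss`, `hF`: the theorems of Faltings (semisimplicity; the endomorphisms of `V` which commute with
  an open subgroup of the Galois group are combinations of endomorphisms of `A`).
* `hdel`: the theorem of Deligne (Hodge classes are Tate classes).
* `hplaces`: every strongly irreducible subspace of dimension at least two satisfies a condition on
  one place of bad semistable reduction, of any toric rank (`HasBadPlace`), or on one or two Frobenius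
  elements at places of good reduction (`HasGoodPlaces`).

Theorem.  Suppose that the strongly irreducible lines are not self-dual and that non-self-dual
strongly irreducible subspaces are not isomorphic to proper twists of each other.  Then, by the
theorem on centres, the subspaces generated by the Hodge classes and by the Tate classes are equal,
for all powers of `A` and in all degrees.  The theorem on centres is not needed if all strongly
irreducible subspaces are symplectic (types I and II of Albert's classification).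
-/

set_option autoImplicit false

namespace Pool.Agent.Results.MP_6c781a_ag.BadOrGoodPlaces

open Module TensorProduct Pool.Agent.Y126.Notions
open Pool.Agent.H204R3.SP Pool.Agent.H204R3.GP Pool.Agent.W522.U
open Pool.Agent.TH118.MT Pool.Agent.Y144.MT

theorem result (ℓ : ℕ) [Fact ℓ.Prime]
    -- the complex abelian variety `A` with a polarization
    {W T : Type} [AddCommGroup W] [Module ℚ W] [FiniteDimensional ℚ W] [AddCommGroup T] [Module ℂ T]
    (per : W →+ T) (ω₀ : W →ₗ[ℚ] W →ₗ[ℚ] ℚ) (halt : ∀ v, ω₀ v v = 0)
    (hnondeg : ∀ u, (∀ v, ω₀ v u = 0) → u = 0) (hω₀ : IsHodgeBilinear per ω₀)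
    -- the action of the Galois group on the Tate module
    {Γ : Type} [Group Γ] (ρ : Representation ℚ_[ℓ] Γ (ℚ_[ℓ] ⊗[ℚ] W)) (χ : Γ →* ℚ_[ℓ])
    (hω : ∀ s u v, bcb ℚ_[ℓ] ω₀ (ρ s u) (ρ s v) = χ s * bcb ℚ_[ℓ] ω₀ u v)
    -- the theorems of Faltings and Deligne
    (hss : FiniteIndexSemisimple ρ) (hF : FaltingsEnd per (incl ℚ_[ℓ] W) ρ)
    (hdel : ∀ n m, hodgeClasses ℚ_[ℓ] per n m ≤ tateClasses ρ χ n m)
    -- the places
    (hplaces : ∀ U, StronglyIrreducible (bcr ρ (AlgebraicClosure ℚ_[ℓ])) U →
      2 ≤ finrank (AlgebraicClosure ℚ_[ℓ]) U →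
      HasBadPlace (bcr ρ (AlgebraicClosure ℚ_[ℓ])) (bcc χ (AlgebraicClosure ℚ_[ℓ])) U ∨
      HasGoodPlaces (bcr ρ (AlgebraicClosure ℚ_[ℓ])) (bcc χ (AlgebraicClosure ℚ_[ℓ])) U) :
    (NoSelfDualLines (bcr ρ (AlgebraicClosure ℚ_[ℓ])) (bcc χ (AlgebraicClosure ℚ_[ℓ])) →
      NoProperTwists (bcr ρ (AlgebraicClosure ℚ_[ℓ])) (bcc χ (AlgebraicClosure ℚ_[ℓ])) →
      CentreTheorem per (Pool.Agent.TH118.MT.extend (k := ℚ_[ℓ]) (AlgebraicClosure ℚ_[ℓ])
        (incl ℚ_[ℓ] W)) (bcr ρ (AlgebraicClosure ℚ_[ℓ])) (bcc χ (AlgebraicClosure ℚ_[ℓ])) →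
      ∀ n m, hodgeClasses ℚ_[ℓ] per n m = tateClasses ρ χ n m) ∧
    ((∀ U, StronglyIrreducible (bcr ρ (AlgebraicClosure ℚ_[ℓ])) U →
        IsSymplectic (bcr ρ (AlgebraicClosure ℚ_[ℓ])) (bcc χ (AlgebraicClosure ℚ_[ℓ])) U) →
      ∀ n m, hodgeClasses ℚ_[ℓ] per n m = tateClasses ρ χ n m) := by
  refine ⟨fun hlines htwists hcen n m => le_antisymm (hdel n m) (tate_le_hodge ?_ n m),
    fun hsym n m => le_antisymm (hdel n m) (tate_le_hodge ?_ n m)⟩
  · refine mt_of_one ℓ per ω₀ halt hnondeg hω₀ ρ χ hω hss hF hcen
      (fun ω hl hinv hpr U hU h2 => ?_) hlines htwists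
    rcases hplaces U hU h2 with h | h
    · exact one_of_bad ω hl hinv hpr hU h
    · exact one_of_good ω hl hinv hpr hU h
  · have h1 := mt_strong_of_one ℓ per ω₀ halt hnondeg hω₀ ρ χ hω hss hF hsym
      (fun ω hl hinv hpr U hU h2 => by
        rcases hplaces U hU h2 with h | h
        · exact one_of_bad ω hl hinv hpr hU h
        · exact one_of_good ω hl hinv hpr hU h)
    intro m φ hφ
    refine Submodule.span_mono ?_ (h1 m φ hφ)
    rintro φ' ⟨ψ, hψ, -, h⟩
    exact ⟨ψ, hψ, h⟩

end Pool.Agent.Results.MP_6c781a_ag.BadOrGoodPlaces
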