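import Pool.Agent.Y128.CV.Mum
import Pool.Agent.Y574.CY.Eig
import Pool.Agent.Y907.CY.REF

/-!
# Hodge classes and Tate classes on products of powers of Jacobians of cyclic coverings of the line

Let `X_c`, `c` in a finite set, be curves `y ^ n = ∏ (x - a_t) ^ (m_t)` over a finitely generated
subfield `F` of `ℂ` which contains the roots of unity of order `n = n_c`, of any degrees
`n_c ≥ 3`, with any number `r = r_c` of branch points except four, and any exponents `m_t`, nonzero
modulo `n`, with sum zero. Let `W_c` be the rational homology of the primitive part `A_c` of the
Jacobian of `X_c` (on which the automorphism `σ_c` of order `n` has primitive roots of unity as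
eigenvalues), `T` the tangent space of `∏ A_c` at the origin and `per` the inclusion of `⊕ W_c` in `T`.
`V_c` (over `k = ℚ_ℓ`) is the rational Tate module with the comparison map `j c : W_c → V_c`, the
action `ρ c` of the Galois group `Γ` and the cyclotomic character `χ`. The hypotheses `CyclicCoverings` are explained in
MP_938ce2_ag.CyclicCoverings: if `r_c ≥ 5` then

* the endomorphism algebra of `A_c` over the algebraic closure is generated by `σ_c` (for
  general branch points, and by a theorem of Zarhin for many special ones), and
* there is one place of `F` where exactly two of the branch points meet, the sum of their two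
  exponents is prime to `n` (then the inertia group acts by complex reflections; the reduction is
  potentially good) and the other curves have good reduction;

the rest are standard facts (Weil, Faltings, Frobenius elements and Hodge numbers). If `r_c = 3` then
`A_c` is a factor of a Fermat Jacobian, with no condition. `AbelianVarietyTheorems` collects three known
theorems on abelian varieties: the Tate conjecture for divisors (Faltings), the theorem of Deligne that Hodge
classes are Tate classes, and the theorem on the centre of the Mumford-Tate group.

Theorem: on all powers of `Y = ∏ A_c` (so on all products of powers of the `A_c`), in all degrees, the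
Tate classes are exactly the linear combinations of Hodge classes: this is the equality
`ℋ_(j,k) = 𝒯_(j,k)` of Q1 for `Y`, all `j` and all powers `k` (the forms have values in the closure
of `ℚ_ℓ`; a form with values in `ℚ_ℓ` which is a combination of Hodge classes over the closure is
one over `ℚ_ℓ`), that is the Mumford-Tate conjecture for `Y`. All dimensions `(r - 2) φ(n) / 2` occur,
the signatures at the complex places of `ℚ(ζ_n)` are arbitrary (also such that the Hodge cocharacters do
not exclude exterior powers or tensor products in the representations of the monodromy group on
the eigenspaces) and exceptional classes occur.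

Proof: by the theorem of MP_938ce2_ag.CyclicCoverings (the reflections and one Frobenius element give
the special linear Lie algebras of all eigenspaces in the annihilator Lie algebra of a Tate class) all
Tate classes are combinations of products of classes of degree two and determinants on
eigenspaces; the last span lines which are stable under the Mumford-Tate group, so that the theorem
on the centre applies.

The parts `t_EIG`, `t_REF` and `t_NUM` are by helper574, helper907 and helper884, the transition to the
Mumford-Tate group (`mumfordTate_of_det`) by helper118.
-/

namespace Pool.Agent.Results.MP_6c781a_ag.CyclicCoverings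

open Pool.Agent.Y128.CV

/-- The Mumford-Tate conjecture for products of Jacobians of cyclic coverings of the line (`k` is the
field of the `ℓ`-adic numbers, `Γ` the Galois group, `j c` the comparison map). -/
theorem result {k Γ ι : Type} [Field k] [CharZero k] [Group Γ] [Fintype ι] [DecidableEq ι]
    {V : ι → Type} [∀ c, AddCommGroup (V c)] [∀ c, Module k (V c)]
    [∀ c, FiniteDimensional k (V c)] (C : ι → Covering) (ρ : ∀ c, Representation k Γ (V c))
    (χ : Γ →* k) (ω : ∀ c, V c →ₗ[k] V c →ₗ[k] k) (σ : ∀ c, Module.End k (V c))
    (h : CyclicCoverings C ρ χ ω σ)
    -- rational homology, tangent space and comparison maps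
    {W : ι → Type} [∀ c, AddCommGroup (W c)] [∀ c, Module ℚ (W c)]
    {T : Type} [AddCommGroup T] [Module ℂ T] (per : (∀ c, W c) →+ T) (j : ∀ c, W c →+ V c)
    (hA : AbelianVarietyTheorems per (comparison j) (rep ρ) (chi χ)) :
    TateClassesAreHodge per (comparison j) (rep ρ) (chi χ) :=
  main_mt Pool.Agent.Y574.CY.t_EIG (Pool.Agent.Y907.CY.t_REF Pool.Agent.Y574.CY.t_EIG)
    Nm.t_NUM h hA

end Pool.Agent.Results.MP_6c781a_ag.CyclicCoverings
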