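import Mathlib
import Pool.Agent.Y111.MM.Tens

/-!
# The `ℓ`-adic Mumford-Tate conjecture is a statement about classes in four variables

Let `Y` be a smooth projective variety over a number field `L` (or a motive of any weights over a
finitely generated field), `V = H^*(Y(ℂ), ℚ)` with its polarized Hodge structure `H`, `ρ` the action of
`Γ = Gal(L̄/L)` on `ℚ_ℓ ⊗ V`, and `A n` the space of the motivated classes on `Y ^ n`, written as
multilinear forms in `n` variables on `V` (Künneth formula and Poincaré duality). The theorem says that
the following are equivalent if `ρ` is semisimple:

* in all degrees `n`, the Hodge classes, the Tate classes and the classes fixed by the identity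
  component of the motivic Galois group agree (so the Hodge classes span the Tate classes on all powers
  of `Y`, and they are motivated);
* this is true for forms in four variables (classes on `Y ^ 4`), and the centre of the
  motivic Lie algebra lies in the Lie algebras of the Mumford-Tate group and of the `ℓ`-adic
  monodromy group.

Semisimplicity cannot be omitted: a Borel subgroup has the same invariants as the whole group. The
condition on the centre is void if there is no factor of type IV, and it is known for abelian
motives; it cannot be omitted, because the determinants in tensor spaces of high degree are not seen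
in degree four. Four variables are needed: the invariants of `SL_6` in the first three tensor powers
of the space `⋀^3` of dimension `20` are those of `Sp_20`. For an abelian variety the Hodge classes
are motivated and the other facts are known, so the Mumford-Tate conjecture for an abelian variety is
equivalent to the statement that its Tate forms in four variables are combinations of Hodge forms.

The proof. The Lie algebras `𝔤` (over `ℚ`) and `𝔥` (over `ℚ_ℓ`) of the Hodge forms and of the Tate
forms have nondegenerate trace forms (by the positivity of the polarization and by the
semisimplicity), so they have Casimir forms in four variables; an element of the motivic Lie algebra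
which annihilates the Casimir form is the sum of an element of `𝔤` (or `𝔥`) and of one that commutes
with it. The topological part shows that the forms annihilated by `𝔥` are exactly the Tate forms: each
element of an explicit open subgroup has a logarithm, whose annihilated forms are the
forms fixed by the element.
-/

namespace Pool.Agent.Results.MP_6c781a_ag.DegreeFour

open TensorProduct Pool.Agent.Y111.MM

/-- Hodge, Tate and motivated classes agree in all degrees (for the identity components of the
groups) if and only if they agree in degree four and on the centre. -/
theorem result {V : Type} [AddCommGroup V] [Module ℚ V] [FiniteDimensional ℚ V]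
    (H : PolarizedHodge V) {ℓ : ℕ} [Fact ℓ.Prime] {Γ : Type} [Group Γ] [TopologicalSpace Γ]
    [IsTopologicalGroup Γ] [CompactSpace Γ] (ρ : Representation ℚ_[ℓ] Γ (ℚ_[ℓ] ⊗[ℚ] V))
    (χ : Γ →* ℚ_[ℓ]) (hG : IsGalois H ρ χ) (hc : IsContinuous ρ χ) (hss : Semisimple ρ)
    -- the motivated classes are Hodge classes and Tate classes
    (A : ∀ n : ℕ, Submodule ℚ (MultilinearMap ℚ (fun _ : Fin n => V) ℚ))
    (hAH : ∀ n, ∀ ψ ∈ A n, IsHodge H ψ)
    (hAT : ∀ n, ∀ ψ ∈ A n, ∀ φ, Extends ℚ_[ℓ] φ ψ → IsTate H ρ χ φ) :
    (∀ n, Agree H ρ χ A n) ↔ Agree H ρ χ A 4 ∧ AgreeCentre H ρ χ A :=
  agree_iff_four H ρ χ hG hc hss A hAH hAT

end Pool.Agent.Results.MP_6c781a_ag.DegreeFour
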