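import Pool.Agent.Y129.Z.MT

/-!
# Zero-one laws for the Mumford-Tate conjecture

Let `L` be a number field in `ℂ` and `k` its algebraic closure. For the smooth projective varieties
over `k` let `W` be the cohomology of `X(ℂ)` with rational coefficients, with its Hodge
decompositions, and let the cohomology with coefficients in `F = ℚ_ℓ` (`ℓ`-adic cohomology, by
Artin's comparison isomorphism) be endowed with the Galois action: a subgroup of finite index of the
Galois group of `L` acts on the cohomology of `X`, namely the Galois group of a field of definition
of `X`. The Tate classes are those which are fixed, after a Tate twist, by a subgroup of finite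
index. Let `X ^ (n + 1)` be the powers of a variety `X`, `t(n)` the dimension of the space of all
Tate classes on `X ^ (n + 1)`, `h(n)` the dimension of the space of all Hodge classes, and `r(n)` the
rank of the intersection form on the space of the classes which are both Tate classes and linear
combinations of Hodge classes.

Theorem. (1) Either all Tate classes on all powers of `X` are linear combinations of Hodge classes,
or `r(n) / t(n)` tends to `0`.
(2) Either all Hodge classes on all powers of `X` are Tate classes, or `r(n) / h(n)` tends to `0`.
(3) Either the Mumford-Tate conjecture holds for all powers of `X` and `r(n) = t(n) = h(n)` for all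
`n`, or `r(n) / max (t(n), h(n))` tends to `0`.
(4) Suppose that all Hodge classes on the powers of `X` are Tate classes (for abelian varieties this
is a theorem of Deligne). Then either the Mumford-Tate conjecture holds for all powers of `X`, or
`h(n) / t(n)` tends to `0`.

So the conjecture for the powers of `X` holds either for all classes or, asymptotically, for none:
if the classes which are explained by it have a positive upper density among all Tate classes and
among all Hodge classes, then it holds for all powers of `X`.

Idea of the proof. Let `B` be the system of the classes which are both Tate classes and linear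
combinations of Hodge classes, and `T` one of the two larger systems. All are stable under products,
pull-backs and push-forwards. If `r(n) / t(n)` does not tend to `0` then a convexity argument for
the ranks of the intersection forms shows that the ranks on `P × Y × Y`, for `P` an even power of
`X` and `Y` a high power of `X`, are almost as large as possible, and one finds a number `N` such
that each class of `T` on each (even) power `P` of `X` is fixed by an idempotent correspondence in
`B` whose image in the cohomology of `P` has dimension at most `N`. Apply this to the external
powers of a class `u` of `T`. If a derivation of the cohomology vanishes on `B` then the derivatives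
of `u ⊗ ... ⊗ u` lie in the image of the idempotent, but they are linearly independent if the
derivative of `u` is not proportional to `u`; so the derivations vanish on `T`. The Hodge
decomposition gives the derivation with the eigenvalues `p - q`, which is not rational, but its
components with respect to all functionals `ℂ → ℚ` are, and the classes which they annihilate are
exactly the Hodge classes. If tensor automorphisms fix `B` then the images of `u ⊗ ... ⊗ u` under
`N + 1` of them lie in the image of the idempotent, and are linearly independent if the images of
`u` are distinct (after adding a multiple of `1`); so a subgroup of finite index of the Galois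
group has finite orbits on `T`, and `T` consists of Tate classes.
-/

open Filter Topology Pool.Agent.H914 Pool.Agent.H914.VarClass Pool.Agent.Y129.Z
open Pool.Agent.Y133.Half (pw)

universe u v w

namespace Pool.Agent.Results.MP_6c781a_ag.ZeroOne

/-- **Zero-one laws for the Mumford-Tate conjecture.** -/
theorem result {k : Type u} [Field k] {𝒱 : VarClass k} {ops : CycleOps 𝒱}
    (W : WeilCohomology.{u, v} ops) [Algebra W.K ℝ] (Ψ : HodgeDec W)
    (F : Type v) [Field F] [Algebra W.K F] {Γ : Type w} [Group Γ] (𝒢 : GaloisSystem W F Γ)
    (X : 𝒱.Obj) (t h r : ℕ → ℕ) (ht : ∀ n, t n = tateDim 𝒢 (pw X n))
    (hh : ∀ n, h n = hodgeDim Ψ (pw X n)) (hr : ∀ n, r n = commonRank Ψ 𝒢 (pw X n)) :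
    ((∀ n, TateLeHodge Ψ 𝒢 (pw X n)) ∨ Tendsto (fun n => (r n : ℝ) / t n) atTop (𝓝 0)) ∧
    ((∀ n, HodgeLeTate Ψ 𝒢 (pw X n)) ∨ Tendsto (fun n => (r n : ℝ) / h n) atTop (𝓝 0)) ∧
    ((∀ n, MumfordTate Ψ 𝒢 (pw X n) ∧ r n = t n ∧ r n = h n) ∨
      Tendsto (fun n => (r n : ℝ) / (max (t n) (h n) : ℕ)) atTop (𝓝 0)) ∧
    ((∀ n, HodgeLeTate Ψ 𝒢 (pw X n)) → (∀ n, MumfordTate Ψ 𝒢 (pw X n)) ∨
      Tendsto (fun n => (h n : ℝ) / t n) atTop (𝓝 0)) := by
  have h := mt_law Ψ 𝒢 X
  simp only [← ht, ← hh, ← hr] at h
  exact h

end Pool.Agent.Results.MP_6c781a_ag.ZeroOne
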